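import Pool.Agent.R349.Short2
import Pool.Agent.R349.Semi2

/-!
# Gel'fond's conjecture on exponentials and logarithms, on algebraic curves: a bounded number of exceptions in small
# discs

Let `α_1, …, α_a` be analytic functions on a connected open set `U` which are algebraic over `ℂ(z)`, no nontrivial
integral combination of which is constant, and let `l_1, …, l_b` be analytic functions on `U` such that the
`β_k = exp(l_k)` are algebraic over `ℂ(z)` and no nontrivial integral combination of the `l_k` is constant. In the most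
interesting case `α_i`, `β_k` are defined over the field of algebraic numbers; then `α_i(x)`, `β_k(x)` are algebraic for
algebraic `x` and the conjecture says that the `a + b` numbers `exp(α_i(x))`, `l_k(x) = log β_k(x)` are algebraically
independent if the `α_i(x)` are linearly independent over `ℚ`, and the `l_k(x)` too.

We show that this is true in bounded degree and height, with **at most `C` exceptions `x` in each disc of radius
`T ^ (-δ)`**, `T` the height of `x` and `δ > 0` arbitrary: let `X_1, …, X_n` be finite sets of elements `x` of a number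
field `F` of degree at most `m`, of height at most `T`, with images in compact sets `K_j`, each of the `X_j` of diameter
at most `T ^ (-δ)`; for instance all elements of `X_j` can be fractions with one fixed denominator `T`. For `n` curves
and the tuples of `X_1 × … × X_n` all but `C ∑_j ∏_(i ≠ j) |X_i|` tuples are good, and there is a good one if all
`|X_j| > C`. Good means that these numbers, for all `n` curves together, satisfy no approximate relation of degree at most
`d` and height at most `T ^ A` whose coefficients are combinations of given complex numbers `ξ_1, …, ξ_g`, and together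
with `π` no relation over `F`.

The proof uses Ax's theorem, relative to countable fields of constants, also for the fact that a nonconstant logarithm of
an algebraic function is not algebraic (`Pool.Agent.R349.Semi.gelfond`), and a determinant method for small discs
(`Pool.Agent.R349.Gen.shortS`).
-/

set_option autoImplicit false

open NumberField

namespace Pool.Agent.Results.MP_c82530_nt.SmallDiscs

/-- The function `f` on `U` is algebraic over `ℂ(z)`. -/
def Algebraic (U : Set ℂ) (f : ℂ → ℂ) : Prop :=
  ∃ P : MvPolynomial (Fin 2) ℂ, P ≠ 0 ∧ ∀ z ∈ U, MvPolynomial.eval ![z, f z] P = 0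

/-- Algebraic functions `α_i` and logarithms `l_k` of algebraic functions, with the conditions stated above. -/
structure Curve (U : Set ℂ) {a b : ℕ} (α : Fin a → ℂ → ℂ) (l : Fin b → ℂ → ℂ) : Prop where
  isOpen : IsOpen U
  isPreconnected : IsPreconnected U
  nonempty : U.Nonempty
  pos : 0 < a + b
  analytic_α : ∀ i, AnalyticOnNhd ℂ (α i) U
  algebraic_α : ∀ i, Algebraic U (α i)
  /-- no nontrivial combination with integral coefficients of the `α_i` is constant -/
  independent_α : ∀ (m : Fin a → ℤ) (c : ℂ), (∀ z ∈ U, ∑ i, (m i : ℂ) * α i z = c) → m = 0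
  analytic_l : ∀ k, AnalyticOnNhd ℂ (l k) U
  algebraic_exp : ∀ k, Algebraic U (fun z => Complex.exp (l k z))
  /-- no nontrivial combination with integral coefficients of the `l_k` is constant -/
  independent_l : ∀ (m : Fin b → ℤ) (c : ℂ), (∀ z ∈ U, ∑ k, (m k : ℂ) * l k z = c) → m = 0

/-- The numbers `exp(α_i(z))`, `l_k(z)`. -/
noncomputable def value {a b : ℕ} (α : Fin a → ℂ → ℂ) (l : Fin b → ℂ → ℂ) (z : ℂ) : Fin a ⊕ Fin b → ℂ
  | Sum.inl i => Complex.exp (α i z)
  | Sum.inr k => l k z

/-- The polynomials of degree at most `d` in each variable, all of whose coefficients are of the form `∑ ξ_i ι(c_i)`, where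
the `c_i` are integers of the number field `F` all of whose conjugates have absolute value at most `H`. -/
def Admissible {σ : Type} {g : ℕ} (F : Type) [Field F] [NumberField F] (ι : F →+* ℂ) (ξ : Fin g → ℂ) (d : ℕ) (H : ℝ)
    (P : MvPolynomial σ ℂ) : Prop :=
  (∀ y, P.degreeOf y ≤ d) ∧
    ∀ s, ∃ c : Fin g → 𝓞 F, (∀ i (φ : F →+* ℂ), ‖φ (c i)‖ ≤ H) ∧ P.coeff s = ∑ i, ξ i * ι (c i)

/-- The complex numbers `v` are good: every admissible polynomial takes at them a value which is at least `δ` times each of
its coefficients, and `π` and these numbers satisfy no relation `Q = 0` with a nonzero polynomial `Q` of degree at most `d`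
in each variable whose coefficients are integers of `F` with conjugates of absolute value at most `H`. -/
def Good {σ : Type} {g : ℕ} (F : Type) [Field F] [NumberField F] (ι : F →+* ℂ) (ξ : Fin g → ℂ) (d : ℕ)
    (H δ : ℝ) (v : σ → ℂ) : Prop :=
  (∀ P : MvPolynomial σ ℂ, Admissible F ι ξ d H P → ∀ s, δ * ‖P.coeff s‖ ≤ ‖MvPolynomial.aeval v P‖) ∧
  ∀ Q : MvPolynomial (Option σ) (𝓞 F), Q ≠ 0 → (∀ x, Q.degreeOf x ≤ d) →
    (∀ s (φ : F →+* ℂ), ‖φ ((Q.coeff s : 𝓞 F) : F)‖ ≤ H) →
    MvPolynomial.eval₂ (ι.comp (algebraMap (𝓞 F) F)) (fun o => o.elim (Real.pi : ℂ) v) Q ≠ 0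

/-- The element `x` of `F` is a quotient of integers all of whose conjugates have absolute value at most `T`. -/
def HeightLe (F : Type) [Field F] [NumberField F] (T : ℝ) (x : F) : Prop :=
  ∃ a b : 𝓞 F, b ≠ 0 ∧ (∀ φ : F →+* ℂ, ‖φ a‖ ≤ T ∧ ‖φ b‖ ≤ T) ∧ x = a / b

/-- Let `(α_j, l_j)` be curves on `U_j` as above (equal or different), `K_j` compact subsets of `U_j`. For all `m`, `g`,
`d`, `A` and `δ > 0` there are `B`, `C`, `T₀` with the property stated above. -/
theorem result {n : ℕ} {a b : Fin n → ℕ} (U : Fin n → Set ℂ) (α : ∀ j, Fin (a j) → ℂ → ℂ)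
    (l : ∀ j, Fin (b j) → ℂ → ℂ) (hU : ∀ j, Curve (U j) (α j) (l j))
    (K : Fin n → Set ℂ) (hK : ∀ j, IsCompact (K j)) (hKU : ∀ j, K j ⊆ U j) (m g d : ℕ) (A δ : ℝ) (hδ : 0 < δ) :
    ∃ (B : ℝ) (C : ℕ) (T₀ : ℝ), ∀ (F : Type) [Field F] [NumberField F], Module.finrank ℚ F ≤ m →
      ∀ (ι : F →+* ℂ) (ξ : Fin g → ℂ) (T : ℝ), T₀ ≤ T → ∀ X : Fin n → Finset F,
        (∀ j, ∀ x ∈ X j, ι x ∈ K j ∧ HeightLe F T x) → (∀ j, ∀ x ∈ X j, ∀ y ∈ X j, ‖ι x - ι y‖ ≤ T ^ (-δ)) →
        (({x : Fin n → F | (∀ j, x j ∈ X j) ∧ ¬ Good F ι ξ d (T ^ A) (T ^ (-B))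
          (fun k : Σ j, (Fin (a j) ⊕ Fin (b j)) => value (α k.1) (l k.1) (ι (x k.1)) k.2)}.ncard : ℝ) ≤
          C * ∑ j, ∏ i ∈ Finset.univ.erase j, ((X i).card : ℝ)) ∧
        ((∀ j, C < (X j).card) → ∃ x : Fin n → F, (∀ j, x j ∈ X j) ∧ Good F ι ξ d (T ^ A) (T ^ (-B))
          (fun k : Σ j, (Fin (a j) ⊕ Fin (b j)) => value (α k.1) (l k.1) (ι (x k.1)) k.2)) := by
  have hfun : ∀ j, (fun (k : Fin (a j) ⊕ Fin (b j)) z => value (α j) (l j) z k) =
      (Sum.elim (fun i z => Complex.exp (α j i z)) (l j) : Fin (a j) ⊕ Fin (b j) → ℂ → ℂ) := by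
    intro j
    funext k z
    rcases k with k | k <;> rfl
  exact Pool.Agent.R349.Gen.shortS m n g d (κ := fun j => Fin (a j) ⊕ Fin (b j)) (fun j => (hU j).isOpen)
    (fun j => (hU j).isPreconnected) (fun j k z => value (α j) (l j) z k)
    (fun j k => by
      rcases k with k | k
      · exact fun z hz => ((hU j).analytic_α k z hz).cexp
      · exact (hU j).analytic_l k)
    (fun j t ht => by
      rw [hfun j]
      exact Pool.Agent.R349.Semi.gelfond (hU j).isOpen (hU j).isPreconnected (hU j).nonempty (hU j).pos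
        (hU j).analytic_α (hU j).algebraic_α (hU j).independent_α (hU j).analytic_l (hU j).algebraic_exp
        (hU j).independent_l t ht) K hK hKU A δ hδ

end Pool.Agent.Results.MP_c82530_nt.SmallDiscs
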